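import Pool.Agent.Y705.SE.Wd

set_option autoImplicit false
set_option linter.all false

/-!
# Superelliptic curves: the norm
-/

open Polynomial
open Pool.Agent.Y160.SE

namespace Pool.Agent.Y705.SE

universe u

variable {ℓ : ℕ} {E : Type u} [Field E] {f : E[X]}

theorem PP_mem (hℓ : ℓ ≠ 0) (a : CR ℓ f) : PP hℓ a ∈ degreeLT E ((PP hℓ a).natDegree + 1) := by
  rw [mem_degreeLT, degree_lt_iff_coeff_zero]
  intro k hk
  exact coeff_eq_zero_of_natDegree_lt (by omega)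

theorem PP_ne_zero (hℓ : ℓ ≠ 0) (hc : ℓ.Coprime f.natDegree) {a : CR ℓ f} (h : a ≠ 0) :
    PP hℓ a ≠ 0 := fun h0 => h (PP_eq_zero hℓ hc h0)

theorem PP_mul_top (hℓ : ℓ ≠ 0) (hf : f.Monic) (hc : ℓ.Coprime f.natDegree) (a b : CR ℓ f) :
    (PP hℓ (a * b)).coeff ((PP hℓ a).natDegree + (PP hℓ b).natDegree) =
      (PP hℓ a).leadingCoeff * (PP hℓ b).leadingCoeff := by
  have h1 := PP_mul_lt hℓ hf hc (PP_mem hℓ a) (PP_mem hℓ b)
  have h2 := (degree_lt_iff_coeff_zero _ _).1 (mem_degreeLT.1 h1) _ le_rfl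
  rw [coeff_sub, sub_eq_zero] at h2
  rw [h2, coeff_mul_degree_add_degree]

theorem wd_mul (hℓ : ℓ ≠ 0) (hf : f.Monic) (hc : ℓ.Coprime f.natDegree) {a b : CR ℓ f}
    (ha : a ≠ 0) (hb : b ≠ 0) : PP hℓ (a * b) ≠ 0 ∧
      (PP hℓ (a * b)).natDegree = (PP hℓ a).natDegree + (PP hℓ b).natDegree := by
  have h0 := PP_mul_top hℓ hf hc a b
  have h1 : (PP hℓ a).leadingCoeff * (PP hℓ b).leadingCoeff ≠ 0 :=
    mul_ne_zero (leadingCoeff_ne_zero.2 (PP_ne_zero hℓ hc ha))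
      (leadingCoeff_ne_zero.2 (PP_ne_zero hℓ hc hb))
  rw [← h0] at h1
  refine ⟨fun h => h1 (by rw [h, coeff_zero]), ?_⟩
  apply natDegree_eq_of_le_of_coeff_ne_zero _ h1
  have h2 := PP_mul_lt hℓ hf hc (PP_mem hℓ a) (PP_mem hℓ b)
  rw [natDegree_le_iff_coeff_eq_zero]
  intro k hk
  have h3 := (degree_lt_iff_coeff_zero _ _).1 (mem_degreeLT.1 h2) k hk.le
  rw [coeff_sub, sub_eq_zero] at h3
  rw [h3]
  apply coeff_eq_zero_of_natDegree_lt
  exact lt_of_le_of_lt natDegree_mul_le hk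

theorem noZero (hℓ : ℓ ≠ 0) (hf : f.Monic) (hc : ℓ.Coprime f.natDegree) :
    NoZeroDivisors (CR ℓ f) := by
  refine ⟨fun {a b} h => ?_⟩
  by_contra hcon
  rw [not_or] at hcon
  have h1 := (wd_mul hℓ hf hc hcon.1 hcon.2).1
  rw [h, PP_zero] at h1
  exact h1 rfl

theorem nontriv (hℓ : ℓ ≠ 0) : Nontrivial (CR ℓ f) := by
  refine ⟨⟨0, 1, fun h => ?_⟩⟩
  have h1 := congrArg (PP hℓ) h
  rw [PP_zero, PP_one] at h1
  exact zero_ne_one h1

theorem isDom (hℓ : ℓ ≠ 0) (hf : f.Monic) (hc : ℓ.Coprime f.natDegree) : IsDomain (CR ℓ f) := by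
  have h1 := noZero hℓ hf hc
  have h2 := nontriv (f := f) hℓ
  exact NoZeroDivisors.to_isDomain _

/-! ### the twist -/

theorem tw_mk {ζ : E} (h : ζ ^ ℓ = 1) (p : E[X][X]) :
    tw ℓ f ζ h (AdjoinRoot.mk (X ^ ℓ - C f : E[X][X]) p) =
      AdjoinRoot.mk (X ^ ℓ - C f : E[X][X]) (p.comp (C (C ζ) * X)) := by
  have key : (tw ℓ f ζ h).comp (AdjoinRoot.mk (X ^ ℓ - C f : E[X][X])) =
      (AdjoinRoot.mk (X ^ ℓ - C f : E[X][X])).comp (compRingHom (C (C ζ) * X)) := by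
    apply Polynomial.ringHom_ext
    · intro q
      show tw ℓ f ζ h (xp ℓ f q) = AdjoinRoot.mk _ ((C q).comp (C (C ζ) * X))
      rw [tw_xp, C_comp]
      rfl
    · show tw ℓ f ζ h (yy ℓ f) = AdjoinRoot.mk _ (X.comp (C (C ζ) * X))
      rw [tw_yy, X_comp, map_mul]
      rfl
  exact congrArg (fun g : E[X][X] →+* CR ℓ f => g p) key

theorem rd_tw (hℓ : ℓ ≠ 0) {ζ : E} (h : ζ ^ ℓ = 1) (a : CR ℓ f) (i : ℕ) :
    (rd hℓ (tw ℓ f ζ h a)).coeff i = (rd hℓ a).coeff i * C ζ ^ i := by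
  conv_lhs => rw [← mk_rd hℓ a, tw_mk]
  rw [rd_mk, comp_C_mul_X_coeff]
  intro j hj
  rw [comp_C_mul_X_coeff, rd_big hℓ a hj, zero_mul]

theorem tw_inj (hℓ : ℓ ≠ 0) {ζ : E} (h : ζ ^ ℓ = 1) : Function.Injective (tw ℓ f ζ h) := by
  have hz : ζ ≠ 0 := by
    rintro rfl
    rw [zero_pow hℓ] at h
    exact zero_ne_one h
  intro a b hab
  apply rd_inj hℓ
  ext1 i
  have h1 := congrArg (fun c => (rd hℓ c).coeff i) hab
  simp only [rd_tw] at h1
  exact mul_right_cancel₀ (pow_ne_zero i (C_ne_zero.2 hz)) h1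

theorem wd_tw (hℓ : ℓ ≠ 0) (hc : ℓ.Coprime f.natDegree) {ζ : E} (h : ζ ^ ℓ = 1) (a : CR ℓ f) :
    (PP hℓ (tw ℓ f ζ h a)).natDegree = (PP hℓ a).natDegree := by
  have hz : ζ ≠ 0 := by
    rintro rfl
    rw [zero_pow hℓ] at h
    exact zero_ne_one h
  have key : ∀ w, (PP hℓ (tw ℓ f ζ h a)).coeff w = 0 ↔ (PP hℓ a).coeff w = 0 := by
    intro w
    by_cases hw : ∃ i k, i < ℓ ∧ w = ℓ * k + f.natDegree * i
    · obtain ⟨i, k, hi, rfl⟩ := hw
      rw [PP_coeff hℓ hc _ hi, PP_coeff hℓ hc _ hi, rd_tw, ← C_pow, coeff_mul_C,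
        mul_eq_zero_iff_right (pow_ne_zero i hz)]
    · constructor
      · intro _
        by_contra hcon
        exact hw (PP_supp hℓ a hcon)
      · intro _
        by_contra hcon
        exact hw (PP_supp hℓ _ hcon)
  have h2 : (PP hℓ (tw ℓ f ζ h a)).support = (PP hℓ a).support := by
    ext w
    rw [mem_support_iff, mem_support_iff, Ne, Ne, key]
  apply natDegree_eq_of_degree_eq
  unfold degree
  rw [h2]

variable {ζ : E}

theorem good_tw_pow (hg : Good ℓ ζ f) (i : ℕ) (h' : (ζ ^ i) ^ ℓ = 1) :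
    hg.tw ^ i = tw ℓ f (ζ ^ i) h' := tw_pow hg.root.pow_eq_one i h'

theorem pow_pow_one (hg : Good ℓ ζ f) (i : ℕ) : (ζ ^ i) ^ ℓ = 1 := by
  rw [← pow_mul, mul_comm, pow_mul, hg.root.pow_eq_one, one_pow]

theorem good_tw_xp (hg : Good ℓ ζ f) (i : ℕ) (p : E[X]) : (hg.tw ^ i) (xp ℓ f p) = xp ℓ f p := by
  rw [good_tw_pow hg i (pow_pow_one hg i), tw_xp]

theorem good_tw_yy (hg : Good ℓ ζ f) (i : ℕ) :
    (hg.tw ^ i) (yy ℓ f) = xp ℓ f (C (ζ ^ i)) * yy ℓ f := by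
  rw [good_tw_pow hg i (pow_pow_one hg i), tw_yy]

theorem good_tw_inj (hg : Good ℓ ζ f) (i : ℕ) : Function.Injective (hg.tw ^ i) := by
  rw [good_tw_pow hg i (pow_pow_one hg i)]
  exact tw_inj hg.prime.ne_zero _

theorem yy_ne (hℓ : 1 < ℓ) : yy ℓ f ≠ 0 := by
  intro h
  have h0 : ℓ ≠ 0 := by omega
  have h1 : AdjoinRoot.mk (X ^ ℓ - C f : E[X][X]) X = 0 := h
  have h2 := cr_repr_zero h0 (by rw [natDegree_X]; exact hℓ) h1
  exact X_ne_zero h2

/-- the norm is the product of the twists -/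
theorem norm_eq (hg : Good ℓ ζ f) (a : CR ℓ f) :
    xp ℓ f (Algebra.norm E[X] a) = ∏ i ∈ Finset.range ℓ, (hg.tw ^ i) a := by
  have hℓ := hg.prime.ne_zero
  have hdom : IsDomain (CR ℓ f) := isDom hℓ hg.monic hg.cop
  set pb := AdjoinRoot.powerBasis' (monic_cr (f := f) hℓ) with hpb
  have hdim : pb.dim = ℓ := by
    rw [hpb, AdjoinRoot.powerBasis'_dim, natDegree_X_pow_sub_C]
  have hgen : pb.gen = yy ℓ f := AdjoinRoot.powerBasis'_gen _
  set V : Matrix (Fin pb.dim) (Fin pb.dim) (CR ℓ f) :=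
    Matrix.vandermonde (fun j : Fin pb.dim => (hg.tw ^ (j : ℕ)) (yy ℓ f)) with hV
  set M : Matrix (Fin pb.dim) (Fin pb.dim) (CR ℓ f) :=
    (Algebra.leftMulMatrix pb.basis a).map (AdjoinRoot.of (X ^ ℓ - C f : E[X][X])) with hM
  have h1 : V * M = Matrix.diagonal (fun j : Fin pb.dim => (hg.tw ^ (j : ℕ)) a) * V := by
    ext j k
    rw [Matrix.diagonal_mul, Matrix.mul_apply]
    have h2 : a * yy ℓ f ^ (k : ℕ) = ∑ i : Fin pb.dim,
        xp ℓ f (Algebra.leftMulMatrix pb.basis a i k) * yy ℓ f ^ (i : ℕ) := by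
      have h3 := pb.basis.sum_repr (a * pb.basis k)
      rw [pb.basis_eq_pow, hgen] at h3
      rw [← h3]
      refine Finset.sum_congr rfl fun i _ => ?_
      rw [Algebra.leftMulMatrix_eq_repr_mul, pb.basis_eq_pow, pb.basis_eq_pow, hgen, Algebra.smul_def]
      rfl
    have h3 := congrArg (hg.tw ^ (j : ℕ)) h2
    rw [map_mul, map_pow, map_sum] at h3
    simp only [hV, Matrix.vandermonde_apply]
    rw [h3]
    refine Finset.sum_congr rfl fun i _ => ?_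
    rw [map_mul, map_pow, good_tw_xp, mul_comm]
    rfl
  have h2 := congrArg Matrix.det h1
  rw [Matrix.det_mul, Matrix.det_mul, Matrix.det_diagonal, mul_comm] at h2
  have hVdet : V.det ≠ 0 := by
    rw [hV, Matrix.det_vandermonde_ne_zero_iff]
    intro i j hij
    simp only [good_tw_yy] at hij
    have h3 := mul_right_cancel₀ (yy_ne hg.prime.one_lt) hij
    have h4 := C_injective (xp_inj hℓ h3)
    exact Fin.ext (hg.root.pow_inj (lt_of_lt_of_eq i.2 hdim) (lt_of_lt_of_eq j.2 hdim) h4)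
  have h3 := mul_right_cancel₀ hVdet h2
  have h4 : M.det = xp ℓ f (Algebra.norm E[X] a) := by
    rw [Algebra.norm_eq_matrix_det pb.basis a, hM]
    unfold xp
    rw [RingHom.map_det]
    rfl
  have h5 : Finset.range ℓ = Finset.range pb.dim := by rw [hdim]
  rw [← h4, h3, h5, Finset.prod_range]

theorem norm_ne (hg : Good ℓ ζ f) {a : CR ℓ f} (ha : a ≠ 0) : Algebra.norm E[X] a ≠ 0 := by
  have hdom : IsDomain (CR ℓ f) := isDom hg.prime.ne_zero hg.monic hg.cop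
  intro h
  have h1 := norm_eq hg a
  rw [h, xp_zero] at h1
  have h2 : ∏ i ∈ Finset.range ℓ, (hg.tw ^ i) a ≠ 0 := by
    rw [Finset.prod_ne_zero_iff]
    intro i _ h3
    exact ha (good_tw_inj hg i (by rw [h3, map_zero]))
  exact h2 h1.symm

theorem wd_pow_tw (hg : Good ℓ ζ f) (i : ℕ) (a : CR ℓ f) :
    (PP hg.prime.ne_zero ((hg.tw ^ i) a)).natDegree = (PP hg.prime.ne_zero a).natDegree := by
  rw [good_tw_pow hg i (pow_pow_one hg i)]
  exact wd_tw _ hg.cop _ a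

theorem wd_prod (hg : Good ℓ ζ f) {ι : Type} (s : Finset ι) (a : ι → CR ℓ f)
    (ha : ∀ i ∈ s, a i ≠ 0) : ∏ i ∈ s, a i ≠ 0 ∧ (PP hg.prime.ne_zero (∏ i ∈ s, a i)).natDegree =
      ∑ i ∈ s, (PP hg.prime.ne_zero (a i)).natDegree := by
  classical
  have hdom : IsDomain (CR ℓ f) := isDom hg.prime.ne_zero hg.monic hg.cop
  induction s using Finset.induction_on with
  | empty => simp [PP_one]
  | insert i s hi ih =>
    obtain ⟨h1, h2⟩ := ih (fun j hj => ha j (Finset.mem_insert_of_mem hj))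
    have h3 := ha i (Finset.mem_insert_self i s)
    rw [Finset.prod_insert hi, Finset.sum_insert hi,
      (wd_mul hg.prime.ne_zero hg.monic hg.cop h3 h1).2, h2]
    exact ⟨mul_ne_zero h3 h1, rfl⟩

/-- the degree of the norm is the weighted degree -/
theorem dg_eq (hg : Good ℓ ζ f) {a : CR ℓ f} (ha : a ≠ 0) :
    dg ℓ f a = (PP hg.prime.ne_zero a).natDegree := by
  have h1 := norm_eq hg a
  have h2 : ∀ i ∈ Finset.range ℓ, (hg.tw ^ i) a ≠ 0 := by
    intro i _ h3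
    exact ha (good_tw_inj hg i (by rw [h3, map_zero]))
  have h3 := (wd_prod hg (Finset.range ℓ) (fun i => (hg.tw ^ i) a) h2).2
  rw [← h1, PP_xp, natDegree_expand] at h3
  simp only [wd_pow_tw hg] at h3
  rw [Finset.sum_const, Finset.card_range, smul_eq_mul, mul_comm] at h3
  exact Nat.eq_of_mul_eq_mul_left hg.prime.pos h3

/-- StNorm -/
theorem stNorm : StNorm := by
  intro ℓ E _ ζ f hg
  have hℓ := hg.prime.ne_zero
  have hdom : IsDomain (CR ℓ f) := isDom hℓ hg.monic hg.cop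
  refine ⟨norm_eq hg, ?_, ?_, ?_⟩
  · intro a ha
    obtain ⟨b, hb⟩ := ha.exists_right_inv
    have ha0 : a ≠ 0 := left_ne_zero_of_mul_eq_one hb
    have hb0 : b ≠ 0 := right_ne_zero_of_mul_eq_one hb
    have h1 := (wd_mul hℓ hg.monic hg.cop ha0 hb0).2
    rw [hb, PP_one, natDegree_one] at h1
    have h2 : (PP hℓ a).natDegree = 0 := by omega
    rw [natDegree_eq_zero] at h2
    obtain ⟨c, hc⟩ := h2
    refine ⟨c, ?_, ?_⟩
    · rintro rfl
      rw [C_0] at hc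
      exact PP_ne_zero hℓ hg.cop ha0 hc.symm
    · apply PP_inj hℓ hg.cop
      rw [PP_xp, expand_C, hc]
  · intro a ha
    refine ⟨(rd hℓ a).coeff 0, ?_⟩
    apply rd_inj hℓ
    rw [rd_xp]
    ext1 i
    rw [coeff_C]
    split_ifs with hi
    · rw [hi]
    · by_cases hi' : i < ℓ
      · have h1 : (rd hℓ (tw ℓ f ζ hg.root.pow_eq_one a)).coeff i = (rd hℓ a).coeff i :=
          congrArg (fun c => (rd hℓ c).coeff i) ha
        rw [rd_tw] at h1
        have h2 : (rd hℓ a).coeff i * (C (ζ ^ i) - 1) = 0 := by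
          rw [mul_sub, C_pow, h1, mul_one, sub_self]
        rcases mul_eq_zero.1 h2 with h3 | h3
        · exact h3
        · exfalso
          rw [sub_eq_zero, ← C_1] at h3
          exact hg.root.pow_ne_one_of_pos_of_lt hi hi' (C_injective h3)
      · exact rd_big hℓ a (not_lt.1 hi')
  · intro a b ha hb hab
    have hPa := PP_ne_zero hℓ hg.cop ha
    have hPb := PP_ne_zero hℓ hg.cop hb
    rw [dg_eq hg ha, dg_eq hg hb] at hab
    set c : E := (PP hℓ a).leadingCoeff / (PP hℓ b).leadingCoeff with hc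
    have hc0 : c ≠ 0 := div_ne_zero (leadingCoeff_ne_zero.2 hPa) (leadingCoeff_ne_zero.2 hPb)
    refine ⟨c, hc0, ?_⟩
    by_cases h : a = xp ℓ f (C c) * b
    · exact Or.inl h
    · right
      have h0 : a - xp ℓ f (C c) * b ≠ 0 := sub_ne_zero.2 h
      rw [dg_eq hg ha, dg_eq hg h0]
      have h1 : PP hℓ (a - xp ℓ f (C c) * b) = PP hℓ a - C c * PP hℓ b := by
        rw [PP_sub, PP_xp_mul, expand_C]
      have h2 := PP_ne_zero hℓ hg.cop h0
      rw [h1] at h2 ⊢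
      apply natDegree_lt_natDegree h2
      apply degree_sub_lt
      · rw [degree_C_mul hc0, degree_eq_natDegree hPa, degree_eq_natDegree hPb, hab]
      · exact hPa
      · rw [leadingCoeff_mul, leadingCoeff_C, hc, div_mul_cancel₀ _ (leadingCoeff_ne_zero.2 hPb)]

end Pool.Agent.Y705.SE
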